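import Pool.Agent.Lib.MP_6d445e_gt.Iface

/-!
# Module PRI: isomorphisms; `PRES` implies properness (helper74)
-/

universe u v w

open Cardinal Filter

namespace Pool.Agent.Lib.MP_6d445e_gt.H74

open Pool.Agent.Lib.MP_6d445e_gt
open Pool.Agent.Lib.MP_e6fef2_lc

theorem club_const {T : Type u} (t : T) : ∀ᶠ N in club.{u}, In N t := all_club.2.2.2.1 T t

theorem club_fun {T T' : Type u} (f : T → T') : ∀ᶠ N in club.{u}, ∀ t : T, In N t → In N (f t) :=
  all_club.2.2.2.2.2.1 T T' f

section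

variable {A C : Type u} [CompleteBooleanAlgebra A] [CompleteBooleanAlgebra C]

theorem sl_bot : Sl (fun _ => (⊥ : C)) := by
  refine ⟨fun _ => 0, Filter.Eventually.of_forall fun g _ p => ?_⟩
  have : {i | (⊥ : C) ∈ g} = (∅ : Set ℕ) := by
    ext i
    simp [g.not_bot]
  rw [this]
  simp

theorem gc_bot (N : Set El.{u}) : gc N (fun _ => (⊥ : A)) = gen A N := by
  unfold gc cut disn
  simp only [compl_bot, inf_bot_eq, iInf_top, iSup_const, inf_top_eq]
  have h1 : (⨅ m : ℕ, ⨆ k : ℕ, ⨆ _ : m ≤ k, (⊤ : A)) = ⊤ := by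
    rw [iInf_eq_top]
    intro m
    refine le_antisymm le_top ?_
    exact le_iSup_of_le m (le_iSup_of_le le_rfl le_rfl)
  rw [h1, inf_top_eq]

theorem pres_pe {f : A → C} (hf : IsCE f) (h : PRES f) : PE f := by
  filter_upwards [h, club_const (fun _ : ℕ => (⊥ : C)), club_const (fun _ : ℕ => (⊥ : A))]
    with N hN h1 h2 c hc
  obtain ⟨ftop, fbot, -⟩ := all_alg A C f hf
  obtain ⟨-, -, -, -, -, -, -, -, -, -, -, -, pmono, -⟩ := all_alg A C f hf
  have h3 := hN (fun _ => ⊥) c (fun _ => ⊥) (fun _ => ⊥) hc h1 sl_bot h2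
  rw [gc_bot] at h3
  have h4 : dis (fun _ => (⊥ : A)) (fun _ => (⊥ : A)) = ⊤ := by
    unfold dis disn
    simp
  have h5 : itp f (prj f) c (fun _ => (⊥ : C)) (fun _ => (⊥ : A)) = prj f c := by
    unfold itp agr
    simp only [fbot, inf_bot_eq, compl_bot, inf_top_eq, bot_sup_eq, iInf_top, iInf_const]
  rw [h4, h5, inf_top_eq] at h3
  refine h3.trans (pmono _ _ ?_)
  refine le_inf (inf_le_left.trans (inf_le_left.trans ?_)) (inf_le_left.trans inf_le_right)
  exact inf_le_left.trans inf_le_left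

/-- the order isomorphism -/
noncomputable def iso {f : A → C} (hf : IsCE f) (hs : Function.Surjective f) : A ≃o C where
  toEquiv := Equiv.ofBijective f ⟨hf.inj, hs⟩
  map_rel_iff' := fun {a b} => (all_alg A C f hf).2.2.2.2.1 a b

theorem iso_apply {f : A → C} (hf : IsCE f) (hs : Function.Surjective f) (a : A) :
    iso hf hs a = f a := rfl

theorem iso_symm_ce {f : A → C} (hf : IsCE f) (hs : Function.Surjective f) :
    IsCE (fun c => (iso hf hs).symm c) := by
  refine ⟨(iso hf hs).symm.injective, fun c => ?_, fun s => ?_⟩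
  · apply (iso hf hs).injective
    rw [OrderIso.apply_symm_apply, iso_apply, hf.compl, ← iso_apply hf hs,
      OrderIso.apply_symm_apply]
  · exact OrderIso.map_sSup _ s

theorem sl_symm {f : A → C} (hf : IsCE f) (hs : Function.Surjective f) {x : ℕ → C} (hx : Sl x) :
    Sl (fun n => (iso hf hs).symm (x n)) := by
  obtain ⟨r, hr⟩ := hx
  refine ⟨r, ?_⟩
  have h1 := ae_pull (iso_symm_ce hf hs) hr
  filter_upwards [h1] with g hg _
  exact hg (Ult.mem_top _)

theorem iso_disn {f : A → C} (hf : IsCE f) (hs : Function.Surjective f) (n : ℕ) (x Y : ℕ → A) :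
    f (disn n x Y) = disn n (fun k => f (x k)) (fun k => f (Y k)) := by
  rw [← iso_apply hf hs]
  unfold disn
  simp only [OrderIso.map_iInf, iso_apply, hf.compl, (all_alg A C f hf).2.2.1]

theorem iso_cut {f : A → C} (hf : IsCE f) (hs : Function.Surjective f) (Y : ℕ → A) :
    f (cut Y) = cut (fun k => f (Y k)) := by
  rw [← iso_apply hf hs]
  unfold cut
  simp only [OrderIso.map_iInf, OrderIso.map_iSup, iso_apply, hf.compl]

theorem pres_of_surj {f : A → C} (hf : IsCE f) (hs : Function.Surjective f) : PRES f := by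
  have hsymm := iso_symm_ce hf hs
  have hgen := (all_gen C).2 A (fun c => (iso hf hs).symm c) hsymm
  filter_upwards [hgen, club_fun (fun (x : ℕ → C) (n : ℕ) => (iso hf hs).symm (x n))]
    with N hN hcl Y c x z hc hx hxs hz
  obtain ⟨ftop, fbot, finf, fsup, fle, -, -, -, -, hcp, hpa, -⟩ := all_alg A C f hf
  -- `f (prj f d) = d`
  have hfp : ∀ d : C, f (prj f d) = d := by
    intro d
    obtain ⟨a, rfl⟩ := hs d
    have : prj f (f a) = a := le_antisymm ((hpa _ _).2 le_rfl) ((fle _ _).1 (hcp _))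
    rw [this]
  rw [← fle, hfp]
  have hgc : f (gc N Y) ≤ gc N (fun n => f (Y n)) := by
    unfold gc
    rw [finf, finf]
    refine le_inf (inf_le_left.trans (le_inf ?_ ?_)) (inf_le_right.trans ?_)
    · refine inf_le_left.trans ?_
      have h1 := (fle _ _).2 hN
      refine h1.trans (le_of_eq ?_)
      show (iso hf hs) ((iso hf hs).symm (gen C N)) = gen C N
      rw [OrderIso.apply_symm_apply]
    · refine inf_le_right.trans (le_of_eq (iso_cut hf hs Y))
    · refine le_iInf fun x' => le_iInf fun hx' => le_iInf fun hsx => ?_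
      have h1 : (⨅ x : ℕ → A, ⨅ _ : In N x, ⨅ _ : Sl x, ⨆ n, disn n x Y) ≤
          ⨆ n, disn n (fun k => (iso hf hs).symm (x' k)) Y :=
        iInf_le_of_le _ (iInf_le_of_le (hcl x' hx') (iInf_le_of_le (sl_symm hf hs hsx) le_rfl))
      refine ((fle _ _).2 h1).trans ?_
      rw [← iso_apply hf hs, OrderIso.map_iSup]
      refine iSup_mono fun n => ?_
      rw [iso_apply, iso_disn hf hs]
      refine le_of_eq ?_
      congr 1
      funext k
      exact OrderIso.apply_symm_apply (iso hf hs) (x' k)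
  have hit : ∀ k, f (itp f (prj f) c x z) ≤ c ⊓ agr f z x k := by
    intro k
    rw [← hfp (c ⊓ agr f z x k), fle]
    exact iInf_le _ k
  have hd : f (dis z Y) = dis (fun k => f (z k)) (fun k => f (Y k)) := iso_disn hf hs 0 z Y
  rw [finf, finf, hd]
  refine le_inf (le_inf ?_ ?_) ?_
  · exact inf_le_left.trans (inf_le_left.trans hgc)
  · exact inf_le_left.trans (inf_le_right.trans ((hit 0).trans inf_le_left))
  · unfold dis disn
    refine le_iInf fun p => le_iInf fun hp => le_iInf fun i => ?_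
    have h1 : f (itp f (prj f) c x z) ≤
        (f (z (Nat.pair p i)) ⊓ x (Nat.pair p i)) ⊔
          ((f (z (Nat.pair p i)))ᶜ ⊓ (x (Nat.pair p i))ᶜ) := by
      refine (hit (Nat.pair p i + 1)).trans (inf_le_right.trans ?_)
      exact iInf_le_of_le (Nat.pair p i) (iInf_le _ (Nat.lt_succ_self _))
    have h2 : (⨅ p : ℕ, ⨅ _ : 0 ≤ p, ⨅ i : ℕ, (f (z (Nat.pair p i)) ⊓ f (Y (Nat.pair p i)))ᶜ) ≤
        (f (z (Nat.pair p i)) ⊓ f (Y (Nat.pair p i)))ᶜ :=
      iInf_le_of_le p (iInf_le_of_le hp (iInf_le _ i))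
    refine le_of_ae (Filter.Eventually.of_forall fun g hg => ?_)
    rw [g.mem_inf, g.mem_inf] at hg
    have g1 := g.mono h1 hg.1.2
    have g2 := g.mono h2 hg.2
    rw [g.mem_sup, g.mem_inf, g.mem_inf, g.mem_compl, g.mem_compl] at g1
    rw [g.mem_compl, g.mem_inf] at g2 ⊢
    tauto

end

/-- **PRI** -/
theorem pri : PriStatement.{u} := fun _ _ _ _ _ hf =>
  ⟨pres_pe hf, pres_of_surj hf⟩

end Pool.Agent.Lib.MP_6d445e_gt.H74
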